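import Pool.Agent.W232.FC.Stm

/-! Task FC-IDL (project of helper232): number of ideals of bounded norm. -/

set_option autoImplicit false

open NumberField

namespace Pool.Agent.W214.FC.Idl

variable {K : Type} [Field K] [NumberField K]

theorem exact_norm (n : ℕ) (hn : n ≠ 0) (t : Finset (Ideal (𝓞 K)))
    (ht : ∀ J ∈ t, J ≠ ⊥ ∧ Ideal.absNorm J = n) : t.card ≤ n ^ Module.finrank ℚ K := by
  classical
  set I : Ideal (𝓞 K) := Ideal.span {(n : 𝓞 K)} with hI
  have hnorm : Ideal.absNorm I = n ^ Module.finrank ℚ K := by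
    rw [hI, Ideal.absNorm_span_natCast, RingOfIntegers.rank]
  have hI0 : Ideal.absNorm I ≠ 0 := by rw [hnorm]; exact pow_ne_zero _ hn
  have hfin : Finite (𝓞 K ⧸ I) := (Ideal.absNorm_ne_zero_iff I).1 hI0
  have hIbot : I ≠ 0 := by
    rw [hI, Ne, Ideal.zero_eq_bot, Ideal.span_singleton_eq_bot]
    exact_mod_cast hn
  have hcard : Nat.card (𝓞 K ⧸ I) = n ^ Module.finrank ℚ K := by
    rw [← hnorm, Ideal.absNorm_apply]
    rfl
  have hex : ∀ J : t, ∃ a : 𝓞 K, I ⊔ Ideal.span {a} = (J : Ideal (𝓞 K)) := by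
    intro J
    refine IsDedekindDomain.exists_sup_span_eq ?_ hIbot
    rw [hI, Ideal.span_le, Set.singleton_subset_iff]
    have h := Ideal.absNorm_mem (J : Ideal (𝓞 K))
    rw [(ht J J.2).2] at h
    exact h
  choose a ha using hex
  have hinj : Function.Injective (fun J : t => Ideal.Quotient.mk I (a J)) := by
    intro J J' h
    have h1 : a J - a J' ∈ I := Ideal.Quotient.eq.1 h
    have h2 : ∀ x y : 𝓞 K, x - y ∈ I → I ⊔ Ideal.span {x} ≤ I ⊔ Ideal.span {y} := by
      intro x y hxy
      refine sup_le le_sup_left ?_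
      rw [Ideal.span_le, Set.singleton_subset_iff]
      have h3 : x = (x - y) + y := by ring
      rw [h3]
      exact Ideal.add_mem _ (Ideal.mem_sup_left hxy)
        (Ideal.mem_sup_right (Ideal.mem_span_singleton_self y))
    have h3 : (J : Ideal (𝓞 K)) = (J' : Ideal (𝓞 K)) := by
      rw [← ha J, ← ha J']
      refine le_antisymm (h2 _ _ h1) (h2 _ _ ?_)
      rw [← neg_sub]
      exact I.neg_mem h1
    exact Subtype.ext h3
  have h4 := Nat.card_le_card_of_injective _ hinj
  rw [hcard] at h4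
  simpa using h4

theorem main : Pool.Agent.W232.FC.S_IDL := by
  intro K _ _ T t ht
  classical
  have h1 : t.card = ∑ n ∈ Finset.Icc 1 T, (t.filter (fun J => Ideal.absNorm J = n)).card := by
    refine Finset.card_eq_sum_card_fiberwise fun J hJ => ?_
    have h2 := ht J hJ
    rw [Finset.coe_Icc, Set.mem_Icc]
    refine ⟨?_, h2.2⟩
    rw [Nat.one_le_iff_ne_zero]
    intro h0
    exact h2.1 (Ideal.absNorm_eq_zero_iff.1 h0)
  rw [h1]
  calc ∑ n ∈ Finset.Icc 1 T, (t.filter (fun J => Ideal.absNorm J = n)).card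
      ≤ ∑ _n ∈ Finset.Icc 1 T, T ^ Module.finrank ℚ K := by
        refine Finset.sum_le_sum fun n hn => ?_
        rw [Finset.mem_Icc] at hn
        refine (exact_norm n (by omega) _ fun J hJ => ?_).trans (Nat.pow_le_pow_left hn.2 _)
        rw [Finset.mem_filter] at hJ
        exact ⟨(ht J hJ.1).1, hJ.2⟩
    _ = T ^ (Module.finrank ℚ K + 1) := by
        rw [Finset.sum_const, Nat.card_Icc, smul_eq_mul, pow_succ]
        simp [mul_comm]

end Pool.Agent.W214.FC.Idl
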