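import Pool.Agent.W232.FC.Stm

/-! Task FC-IDV (project of helper232): number of divisors of an ideal. -/

set_option autoImplicit false

open NumberField UniqueFactorizationMonoid

namespace Pool.Agent.W214.FC.Idv

theorem main : Pool.Agent.W232.FC.S_IDV := by
  intro K _ _ I k hI hk t ht
  classical
  set m : Multiset (Ideal (𝓞 K)) := normalizedFactors I with hm
  have hI' : I ≠ 0 := hI
  have hle : ∀ J ∈ t, normalizedFactors J ∈ Finset.Iic m := by
    intro J hJ
    have hJ0 : J ≠ 0 := fun h => hI' (zero_dvd_iff.1 (h ▸ ht J hJ))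
    rw [Finset.mem_Iic, hm]
    exact (dvd_iff_normalizedFactors_le_normalizedFactors hJ0 hI').1 (ht J hJ)
  have hinj : Set.InjOn (fun J : Ideal (𝓞 K) => normalizedFactors J) (t : Set (Ideal (𝓞 K))) := by
    intro J hJ J' hJ' h
    have hJ0 : J ≠ ⊥ := fun h => by
      have h2 := ht J hJ
      rw [h, ← Ideal.zero_eq_bot, zero_dvd_iff] at h2
      exact hI' h2
    have hJ0' : J' ≠ ⊥ := fun h => by
      have h2 := ht J' hJ'
      rw [h, ← Ideal.zero_eq_bot, zero_dvd_iff] at h2
      exact hI' h2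
    rw [← Ideal.prod_normalizedFactors_eq_self hJ0, ← Ideal.prod_normalizedFactors_eq_self hJ0']
    exact congrArg Multiset.prod h
  have h1 : t.card ≤ (Finset.Iic m).card := Finset.card_le_card_of_injOn _ hle hinj
  rw [Multiset.card_Iic] at h1
  refine h1.trans ?_
  have hN0 : Ideal.absNorm I ≠ 0 := fun h => hI (Ideal.absNorm_eq_zero_iff.1 h)
  have hprime : ∀ P ∈ m.toFinset, Prime P ∧ P ∣ I := by
    intro P hP
    rw [Multiset.mem_toFinset, hm] at hP
    exact ⟨prime_of_normalized_factor P hP, dvd_of_mem_normalizedFactors hP⟩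
  have hcount : ∀ P ∈ m.toFinset, m.count P + 1 ≤ Nat.log 2 (Ideal.absNorm I) + 1 := by
    intro P hP
    obtain ⟨hPp, hPI⟩ := hprime P hP
    refine Nat.succ_le_succ ?_
    refine Nat.le_log_of_pow_le (by norm_num) ?_
    have h2 : P ^ (m.count P) ∣ I := by
      have h3 : (m.filter (fun Q => Q = P)).prod ∣ m.prod :=
        Multiset.prod_dvd_prod_of_le (Multiset.filter_le _ _)
      rw [Multiset.filter_eq', Multiset.prod_replicate, hm,
        Ideal.prod_normalizedFactors_eq_self hI] at h3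
      exact h3
    have h4 : Ideal.absNorm P ^ (m.count P) ∣ Ideal.absNorm I := by
      rw [← map_pow]
      exact map_dvd Ideal.absNorm h2
    have h5 : 2 ≤ Ideal.absNorm P := by
      have h6 : Ideal.absNorm P ≠ 0 := fun h => hPp.ne_zero (Ideal.absNorm_eq_zero_iff.1 h)
      have h7 : Ideal.absNorm P ≠ 1 := fun h =>
        hPp.not_isUnit (Ideal.isUnit_iff.2 (Ideal.absNorm_eq_one_iff.1 h))
      omega
    exact (Nat.pow_le_pow_left h5 _).trans (Nat.le_of_dvd (Nat.pos_of_ne_zero hN0) h4)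
  refine (Finset.prod_le_prod (fun _ _ => Nat.zero_le _) hcount).trans ?_
  rw [Finset.prod_const]
  refine Nat.pow_le_pow_right (Nat.succ_pos _) (hk _ fun P hP => ?_)
  obtain ⟨hPp, hPI⟩ := hprime P hP
  exact ⟨Ideal.isPrime_of_prime hPp, hPp.ne_zero, Ideal.le_of_dvd hPI⟩

end Pool.Agent.W214.FC.Idv
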